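import Pool.Agent.helper81.CW.Spec2

/-! # Project cw: TLOW (outer measure, lower bound) -/

open MeasureTheory Set
open scoped ENNReal Pointwise

namespace Pool.Agent.helper81.CW

theorem TLOW (hHULL : HULL_stmt) (hJ1 : J1_stmt) (hJ2 : J2_stmt) (hJ3 : J3_stmt) : TLOW_stmt := by
  intro n C w hn hC
  obtain ⟨hne, hcomp, hconv, hw, -⟩ := id hC
  have hC1 := (hJ3 n C w (1 / w) 0 hC (by positivity)).1
  have h1w : 1 / w * w = 1 := by field_simp
  rw [h1w] at hC1
  set C1 : Set (E n) := (fun x => (1 / w) • (x - 0)) '' C with hC1def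
  obtain ⟨hne1, hcomp1, -, -, -⟩ := id hC1
  have hdiam := (hJ2 n C1 1 hC1).1
  obtain ⟨z, R, hR, hR2, hz⟩ := hJ1 n C1 hcomp1 hne1 hdiam
  set C2 : Set (E n) := (fun x => x - z) '' C1 with hC2def
  have hRs : R ≤ Real.sqrt (1 / 2) := by
    rw [← Real.sqrt_sq hR]
    exact Real.sqrt_le_sqrt hR2
  have hH := hHULL n C2 hn (hcomp1.image (by fun_prop)) (hne1.image _) (by
    rintro _ ⟨x, hx, rfl⟩ _ ⟨y, hy, rfl⟩
    have h1 : (x - z) - (y - z) = x - y := by abel
    simp only [h1]
    exact hdiam x hx y hy) (by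
    rintro _ ⟨x, hx, rfl⟩
    exact (hz x hx).trans hRs)
  set H : Set (E n) := convexHull ℝ (C2 ∪ {x | -x ∈ C2}) with hHdef
  -- `H` is symmetric
  have hHneg : ∀ x, x ∈ H → -x ∈ H := by
    intro x hx
    have h1 : -x ∈ -H := by simpa using hx
    have h2 : -H = convexHull ℝ (-(C2 ∪ {x | -x ∈ C2})) := (convexHull_neg _).symm
    have h3 : -(C2 ∪ {x | -x ∈ C2}) = C2 ∪ {x | -x ∈ C2} := by
      ext y
      simp only [Set.mem_neg, Set.mem_union, Set.mem_ofPred_eq, neg_neg]
      exact or_comm
    rw [h2, h3] at h1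
    exact h1
  have hHconv : Convex ℝ H := convex_convexHull ℝ _
  -- the symmetric body
  set B : Set (E n) := (fun y : E n => (1 / w) • y) ⁻¹' ((fun x : E n => x + (-z)) ⁻¹' H) with hB
  have hBmem : ∀ y, y ∈ B ↔ (1 / w) • y - z ∈ H := fun y => by
    rw [hB]
    simp only [Set.mem_preimage, sub_eq_add_neg]
  have hCB : C ⊆ B := by
    intro x hx
    rw [hBmem]
    apply subset_convexHull ℝ _
    left
    refine ⟨(1 / w) • x, ⟨x, hx, ?_⟩, rfl⟩
    simp
  have hBconv : Convex ℝ B := by
    intro x hx y hy a b ha hb hab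
    rw [hBmem] at hx hy ⊢
    have h1 := hHconv hx hy ha hb hab
    have h2 : (1 / w) • (a • x + b • y) - z =
        a • ((1 / w) • x - z) + b • ((1 / w) • y - z) := by
      have h3 : z = (a + b) • z := by rw [hab, one_smul]
      conv_lhs => rw [h3]
      module
    rw [h2]; exact h1
  have hBsym : CentrallySymmetric B := by
    refine ⟨w • z, fun x => ?_⟩
    have h1 : ∀ x, x ∈ B → (2 : ℝ) • (w • z) - x ∈ B := by
      intro x hx
      rw [hBmem] at hx ⊢
      have h2 : (1 / w) • ((2 : ℝ) • (w • z) - x) - z = -((1 / w) • x - z) := by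
        rw [smul_sub, smul_smul, smul_smul]
        have h3 : 1 / w * 2 * w = 2 := by field_simp
        rw [h3]
        module
      rw [h2]
      exact hHneg _ hx
    refine ⟨h1 x, fun h => ?_⟩
    have h2 := h1 _ h
    rwa [sub_sub_cancel] at h2
  have hvolB : volume B = ENNReal.ofReal (w ^ n) * volume H := by
    rw [hB, Measure.addHaar_preimage_smul volume (by positivity), measure_preimage_add_right]
    congr 2
    rw [finrank_euclideanSpace, Fintype.card_fin, abs_of_pos (by positivity)]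
    rw [one_div, inv_pow, inv_inv]
  have hball : volume (Metric.closedBall (0 : E n) (w / 2)) =
      ENNReal.ofReal (w ^ n) * volume (Metric.closedBall (0 : E n) (1 / 2)) := by
    rw [Measure.addHaar_closedBall volume (0 : E n) (by positivity : (0 : ℝ) ≤ w / 2),
      Measure.addHaar_closedBall volume (0 : E n) (by positivity : (0 : ℝ) ≤ 1 / 2),
      finrank_euclideanSpace, Fintype.card_fin, ← mul_assoc, ← ENNReal.ofReal_mul (by positivity)]
    congr 2
    rw [← mul_pow]
    congr 1
    ring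
  have hle : (⨅ B : {B : Set (E n) // C ⊆ B ∧ Convex ℝ B ∧ CentrallySymmetric B}, volume B.1) ≤
      ENNReal.ofReal (5 * ((n : ℝ) + 1)) * volume (Metric.closedBall (0 : E n) (w / 2)) := by
    refine (iInf_le _ ⟨B, hCB, hBconv, hBsym⟩).trans ?_
    simp only
    rw [hvolB, hball]
    calc ENNReal.ofReal (w ^ n) * volume H ≤ ENNReal.ofReal (w ^ n) *
          (ENNReal.ofReal (5 * ((n : ℝ) + 1)) * volume (Metric.closedBall (0 : E n) (1 / 2))) := by
          gcongr
      _ = _ := by ring
  unfold outerSym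
  exact ENNReal.div_le_div_left hle _

end Pool.Agent.helper81.CW
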